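import Mathlib

set_option autoImplicit false

namespace Pool.Agent.H22.FourAP

open MvPolynomial

variable {K : Type*} [Field K] {n : ℕ}

/-- the translate `u ↦ P (x + u)` -/
noncomputable def shiftP (x : Fin n → K) (P : MvPolynomial (Fin n) K) : MvPolynomial (Fin n) K :=
  aeval (fun i => X i + C (x i)) P

lemma eval_shiftP (x u : Fin n → K) (P : MvPolynomial (Fin n) K) :
    eval u (shiftP x P) = eval (x + u) P := by
  unfold shiftP
  rw [← coe_aeval_eq_eval, ← coe_aeval_eq_eval]
  show (aeval u) ((aeval fun i => X i + C (x i)) P) = (aeval (x + u)) P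
  rw [← AlgHom.comp_apply]
  congr 1
  ext i
  simp [add_comm]

lemma shiftP_deg (x : Fin n → K) (P : MvPolynomial (Fin n) K) :
    (shiftP x P).totalDegree ≤ P.totalDegree := by
  unfold shiftP
  rw [aeval_def, eval₂_eq]
  refine totalDegree_finsetSum_le ?_
  intro m hm
  refine (totalDegree_mul _ _).trans ?_
  have h1 : ((algebraMap K (MvPolynomial (Fin n) K)) (coeff m P)).totalDegree = 0 := by
    rw [algebraMap_eq]; exact totalDegree_C _
  rw [h1, zero_add]
  refine (totalDegree_finsetProd _ _).trans ?_
  refine le_trans ?_ (le_totalDegree hm)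
  rw [Finsupp.sum]
  refine Finset.sum_le_sum ?_
  intro i _
  refine (totalDegree_pow _ _).trans ?_
  refine (Nat.mul_le_mul_left _ ((totalDegree_add _ _).trans (max_le (totalDegree_X _).le
    ((totalDegree_C _).le.trans (Nat.zero_le _))))).trans ?_
  omega

lemma eval_smul_hom {φ : MvPolynomial (Fin n) K} {k : ℕ} (h : φ.IsHomogeneous k)
    (t : K) (u : Fin n → K) : eval (t • u) φ = t ^ k * eval u φ := by
  rw [eval_eq', eval_eq', Finset.mul_sum]
  refine Finset.sum_congr rfl ?_
  intro m hm
  have hk : ∑ i, m i = k := by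
    have := h (mem_support_iff.mp hm)
    rw [← this, Finsupp.weight_apply, Finsupp.sum_fintype]
    · simp
    · simp
  have : ∏ i, (t • u) i ^ m i = t ^ k * ∏ i, u i ^ m i := by
    simp only [Pi.smul_apply, smul_eq_mul, mul_pow, Finset.prod_mul_distrib,
      Finset.prod_pow_eq_pow_sum, hk]
  rw [this]
  ring

/-- if all homogeneous components of degree `1..D` of the translate vanish at `u`,
then `P` is constant along the line -/
lemma const_on_line (D : ℕ) (x u : Fin n → K) (P : MvPolynomial (Fin n) K)
    (hP : P.totalDegree ≤ D)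
    (h : ∀ k, 1 ≤ k → k ≤ D → eval u (homogeneousComponent k (shiftP x P)) = 0) (t : K) :
    eval (x + t • u) P = eval x P := by
  have e : ∀ v : Fin n → K, eval (x + v) P
      = ∑ k ∈ Finset.range (D + 1), eval v (homogeneousComponent k (shiftP x P)) := by
    intro v
    rw [← eval_shiftP, ← map_sum]
    have hd := (shiftP_deg x P).trans hP
    conv_lhs => rw [← sum_homogeneousComponent (shiftP x P)]
    congr 1
    refine Finset.sum_subset (Finset.range_subset_range.mpr (by omega)) ?_
    intro k _ hk
    rw [Finset.mem_range, not_lt] at hk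
    exact homogeneousComponent_eq_zero _ _ (by omega)
  rw [e, Finset.sum_range_succ', Finset.sum_eq_zero, zero_add]
  · have := e 0
    rw [add_zero, Finset.sum_range_succ', Finset.sum_eq_zero, zero_add] at this
    · rw [this, eval_smul_hom (homogeneousComponent_isHomogeneous 0 _), pow_zero, one_mul]
      rw [homogeneousComponent_zero, eval_C, eval_C]
    · intro k hk
      have h1 := eval_smul_hom (homogeneousComponent_isHomogeneous (k+1) (shiftP x P)) 0 0
      simp only [smul_zero, pow_succ, mul_zero, zero_mul] at h1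
      exact h1
  · intro k hk
    rw [Finset.mem_range] at hk
    rw [eval_smul_hom (homogeneousComponent_isHomogeneous (k+1) _), h (k+1) (by omega) (by omega),
      mul_zero]

/-- part (2) -/
theorem full_line [Fintype K] [DecidableEq K] (p : ℕ) [Fact p.Prime] [CharP K p]
    (D r : ℕ) (hn : r * (D * (D + 1)) < 2 * n)
    (P : Fin r → MvPolynomial (Fin n) K) (hP : ∀ j, (P j).totalDegree ≤ D) (x : Fin n → K) :
    ∃ d : Fin n → K, d ≠ 0 ∧ ∀ (t : K) (j : Fin r), eval (x + t • d) (P j) = eval x (P j) := by
  classical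
  let f : Fin r × Fin D → MvPolynomial (Fin n) K := fun q =>
    homogeneousComponent ((q.2 : ℕ) + 1) (shiftP x (P q.1))
  have hsum : ∑ q, (f q).totalDegree < Fintype.card (Fin n) := by
    have h1 : ∀ q : Fin r × Fin D, (f q).totalDegree ≤ (q.2 : ℕ) + 1 := fun q =>
      (homogeneousComponent_isHomogeneous _ _).totalDegree_le
    have h2 : ∑ q, (f q).totalDegree ≤ ∑ q : Fin r × Fin D, ((q.2 : ℕ) + 1) :=
      Finset.sum_le_sum fun q _ => h1 q
    have h3 : ∑ q : Fin r × Fin D, ((q.2 : ℕ) + 1) = r * ∑ k ∈ Finset.range D, (k + 1) := by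
      rw [Fintype.sum_prod_type]
      simp only [Finset.sum_const, Finset.card_univ, Fintype.card_fin, smul_eq_mul]
      rw [Fin.sum_univ_eq_sum_range (fun k => k + 1)]
    have h4 : 2 * ∑ k ∈ Finset.range D, (k + 1) = D * (D + 1) := by
      have := Finset.sum_range_id_mul_two (D + 1)
      rw [Finset.sum_range_succ'] at this
      simp only [add_zero, Nat.add_sub_cancel] at this
      linarith
    rw [Fintype.card_fin]
    rw [h3] at h2
    nlinarith
  have hcw := char_dvd_card_solutions_of_fintype_sum_lt p hsum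
  have hz : ∀ q, eval (0 : Fin n → K) (f q) = 0 := by
    intro q
    have h1 := eval_smul_hom (homogeneousComponent_isHomogeneous ((q.2 : ℕ) + 1)
      (shiftP x (P q.1))) 0 0
    simp only [smul_zero, pow_succ, mul_zero, zero_mul] at h1
    exact h1
  have hcard : 1 < Fintype.card {y : Fin n → K // ∀ q, eval y (f q) = 0} := by
    have hpos : 0 < Fintype.card {y : Fin n → K // ∀ q, eval y (f q) = 0} :=
      Fintype.card_pos_iff.mpr ⟨⟨0, hz⟩⟩
    have := Nat.le_of_dvd hpos hcw
    have hp2 := (Fact.out : p.Prime).two_le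
    omega
  obtain ⟨y, hy⟩ := Fintype.exists_ne_of_one_lt_card hcard ⟨0, hz⟩
  refine ⟨y.1, fun h => hy (Subtype.ext h), ?_⟩
  intro t j
  refine const_on_line D x y.1 (P j) (hP j) ?_ t
  intro k hk1 hk2
  have := y.2 (j, ⟨k - 1, by omega⟩)
  have hk : k - 1 + 1 = k := by omega
  simpa [f, hk] using this

end Pool.Agent.H22.FourAP
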