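import Mathlib

set_option autoImplicit false

namespace Pool.Agent.H22.FourAP

open MvPolynomial

instance fact5 : Fact (Nat.Prime 5) := ⟨by norm_num⟩

/-- cubic form without nontrivial zero over F_5 -/
def n3 {R : Type*} [CommRing R] (a b c : R) : R :=
  a ^ 3 - 2 * a ^ 2 * c + a * c ^ 2 + a * b ^ 2 + 3 * a * b * c - b * c ^ 2 - b ^ 3 + c ^ 3

/-- quadratic form without nontrivial zero over F_5 -/
def n2 {R : Type*} [CommRing R] (a b : R) : R := a ^ 2 - 2 * b ^ 2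

lemma n3_aniso : ∀ a b c : ZMod 5, n3 a b c = 0 → a = 0 ∧ b = 0 ∧ c = 0 := by
  decide

lemma n2_aniso : ∀ a b : ZMod 5, n2 a b = 0 → a = 0 ∧ b = 0 := by
  decide

/-- the cubic polynomial in six variables -/
def h6 {R : Type*} [CommRing R] (x : ℕ → R) : R :=
  n3 (x 0) (x 1) (x 2) + n2 (x 3) (x 4) + x 5

lemma third_diff (x d : ℕ → ZMod 5) :
    h6 (fun i => x i + 3 * d i) - 3 * h6 (fun i => x i + 2 * d i) + 3 * h6 (fun i => x i + d i)
      - h6 x = 6 * n3 (d 0) (d 1) (d 2) := by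
  simp only [h6, n3, n2]; ring

lemma second_diff (x d : ℕ → ZMod 5) (h0 : d 0 = 0) (h1 : d 1 = 0) (h2 : d 2 = 0) :
    h6 (fun i => x i + 2 * d i) - 2 * h6 (fun i => x i + d i) + h6 x = 2 * n2 (d 3) (d 4) := by
  simp only [h6, n3, n2, h0, h1, h2]; ring

lemma first_diff (x d : ℕ → ZMod 5) (h0 : d 0 = 0) (h1 : d 1 = 0) (h2 : d 2 = 0)
    (h3 : d 3 = 0) (h4 : d 4 = 0) :
    h6 (fun i => x i + d i) - h6 x = d 5 := by
  simp only [h6, n3, n2, h0, h1, h2, h3, h4]; ring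

/-- four equal values of `h6` along an arithmetic progression force the difference to vanish -/
lemma h6_line (x d : ℕ → ZMod 5)
    (e1 : h6 (fun i => x i + d i) = h6 x) (e2 : h6 (fun i => x i + 2 * d i) = h6 x)
    (e3 : h6 (fun i => x i + 3 * d i) = h6 x) :
    ∀ i < 6, d i = 0 := by
  have t := third_diff x d
  rw [e1, e2, e3] at t
  have t' : n3 (d 0) (d 1) (d 2) = 0 := by
    have h6' : (6 : ZMod 5) = 1 := by decide
    rw [h6', one_mul] at t
    rw [← t]; ring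
  obtain ⟨a0, a1, a2⟩ := n3_aniso _ _ _ t'
  have s := second_diff x d a0 a1 a2
  rw [e1, e2] at s
  have s' : n2 (d 3) (d 4) = 0 := by
    have : (2 : ZMod 5) * n2 (d 3) (d 4) = 0 := by rw [← s]; ring
    have h3 : (3 : ZMod 5) * (2 * n2 (d 3) (d 4)) = 0 := by rw [this, mul_zero]
    have h6' : (3 : ZMod 5) * 2 = 1 := by decide
    rw [← mul_assoc, h6', one_mul] at h3
    exact h3
  obtain ⟨a3, a4⟩ := n2_aniso _ _ s'
  have f := first_diff x d a0 a1 a2 a3 a4
  rw [e1, sub_self] at f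
  intro i hi
  interval_cases i
  · exact a0
  · exact a1
  · exact a2
  · exact a3
  · exact a4
  · exact f.symm

/-- extension by zero -/
def ext {R : Type*} [Zero R] {n : ℕ} (v : Fin n → R) (i : ℕ) : R :=
  if h : i < n then v ⟨i, h⟩ else 0

/-- the polynomial of block `j` -/
noncomputable def blockPoly (n j : ℕ) : MvPolynomial (Fin n) (ZMod 5) :=
  h6 (fun i => ext (fun k : Fin n => (X k : MvPolynomial (Fin n) (ZMod 5))) (6 * j + i))

lemma eval_blockPoly (n j : ℕ) (x : Fin n → ZMod 5) :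
    eval x (blockPoly n j) = h6 (fun i => ext x (6 * j + i)) := by
  have key : ∀ k : ℕ, eval x (ext (fun k : Fin n => (X k : MvPolynomial (Fin n) (ZMod 5))) k)
      = ext x k := by
    intro k
    unfold ext
    split_ifs with h
    · simp
    · simp
  simp only [blockPoly, h6, n3, n2, map_add, map_sub, map_mul, map_pow, key, map_ofNat]

lemma ext_deg (n k : ℕ) :
    (ext (fun k : Fin n => (X k : MvPolynomial (Fin n) (ZMod 5))) k).totalDegree ≤ 1 := by
  unfold ext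
  split_ifs with h
  · exact (totalDegree_X _).le
  · simp

lemma blockPoly_deg (n j : ℕ) : (blockPoly n j).totalDegree ≤ 3 := by
  have hd := ext_deg n
  have hadd : ∀ p q : MvPolynomial (Fin n) (ZMod 5), p.totalDegree ≤ 3 → q.totalDegree ≤ 3 →
      (p + q).totalDegree ≤ 3 := fun p q hp hq => (totalDegree_add p q).trans (max_le hp hq)
  have hsub : ∀ p q : MvPolynomial (Fin n) (ZMod 5), p.totalDegree ≤ 3 → q.totalDegree ≤ 3 →
      (p - q).totalDegree ≤ 3 := fun p q hp hq => (totalDegree_sub p q).trans (max_le hp hq)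
  have hmul : ∀ (p q : MvPolynomial (Fin n) (ZMod 5)) (a b : ℕ), p.totalDegree ≤ a →
      q.totalDegree ≤ b → (p * q).totalDegree ≤ a + b := fun p q a b hp hq =>
    (totalDegree_mul p q).trans (add_le_add hp hq)
  have hpow : ∀ (p : MvPolynomial (Fin n) (ZMod 5)) (m : ℕ), p.totalDegree ≤ 1 →
      (p ^ m).totalDegree ≤ m := fun p m hp =>
    (totalDegree_pow p m).trans ((Nat.mul_le_mul_left m hp).trans (by omega))
  have h2 : ((2 : MvPolynomial (Fin n) (ZMod 5))).totalDegree ≤ 0 := by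
    have : (2 : MvPolynomial (Fin n) (ZMod 5)) = C 2 := (map_ofNat C 2).symm
    rw [this, totalDegree_C]
  have h3 : ((3 : MvPolynomial (Fin n) (ZMod 5))).totalDegree ≤ 0 := by
    have : (3 : MvPolynomial (Fin n) (ZMod 5)) = C 3 := (map_ofNat C 3).symm
    rw [this, totalDegree_C]
  unfold blockPoly h6 n3 n2
  refine hadd _ _ (hadd _ _ (hadd _ _ (hsub _ _ (hsub _ _ (hadd _ _ (hadd _ _ (hadd _ _ (hsub _ _
    ?_ ?_) ?_) ?_) ?_) ?_) ?_) ?_) (hsub _ _ ?_ ?_)) ?_
  · exact hpow _ 3 (hd _)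
  · exact hmul _ _ 2 1 (hmul _ _ 0 2 h2 (hpow _ 2 (hd _))) (hd _)
  · exact hmul _ _ 1 2 (hd _) (hpow _ 2 (hd _))
  · exact hmul _ _ 1 2 (hd _) (hpow _ 2 (hd _))
  · exact hmul _ _ 2 1 (hmul _ _ 1 1 (hmul _ _ 0 1 h3 (hd _)) (hd _)) (hd _)
  · exact hmul _ _ 1 2 (hd _) (hpow _ 2 (hd _))
  · exact hpow _ 3 (hd _)
  · exact hpow _ 3 (hd _)
  · exact (hpow _ 2 (hd _)).trans (by norm_num)
  · exact (hmul _ _ 0 2 h2 (hpow _ 2 (hd _))).trans (by norm_num)
  · exact (hd _).trans (by norm_num)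

lemma ext_add {n : ℕ} (x y : Fin n → ZMod 5) (i : ℕ) : ext (x + y) i = ext x i + ext y i := by
  unfold ext; split_ifs <;> simp

lemma ext_nsmul {n : ℕ} (m : ℕ) (x : Fin n → ZMod 5) (i : ℕ) :
    ext (m • x) i = m * ext x i := by
  unfold ext; split_ifs <;> simp

/-- part (1) -/
theorem exists_cubic (n r : ℕ) (hn : n ≤ 6 * r) :
    ∃ P : Fin r → MvPolynomial (Fin n) (ZMod 5), (∀ j, (P j).totalDegree ≤ 3) ∧
      ∀ x d : Fin n → ZMod 5, (∀ j, eval (x + d) (P j) = eval x (P j)) →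
        (∀ j, eval (x + 2 • d) (P j) = eval x (P j)) →
        (∀ j, eval (x + 3 • d) (P j) = eval x (P j)) → d = 0 := by
  refine ⟨fun j => blockPoly n j, fun j => blockPoly_deg n j, ?_⟩
  intro x d e1 e2 e3
  funext i
  have hi := i.2
  have hj : (i : ℕ) / 6 < r := by omega
  have k1 := e1 ⟨(i : ℕ) / 6, hj⟩
  have k2 := e2 ⟨(i : ℕ) / 6, hj⟩
  have k3 := e3 ⟨(i : ℕ) / 6, hj⟩
  simp only [eval_blockPoly, ext_add, ext_nsmul, Nat.cast_ofNat] at k1 k2 k3
  have := h6_line (fun k => ext x (6 * ((i : ℕ) / 6) + k)) (fun k => ext d (6 * ((i : ℕ) / 6) + k))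
    k1 k2 k3 ((i : ℕ) % 6) (Nat.mod_lt _ (by norm_num))
  rw [Nat.div_add_mod] at this
  unfold ext at this
  rw [dif_pos hi] at this
  simpa using this

end Pool.Agent.H22.FourAP
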